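import Pool.Agent.ER.Defs
import Mathlib.Analysis.InnerProductSpace.Positive

/-!
# Linear maps on matrices with Gaussian integer coefficients

A linear map `Φ` on the complex `n × n` matrices is given by `n` (in unary, as a list of length
`n`) and a list of terms `((a, b), (i, j), (k, l))`, each of which stands for the linear map
`X ↦ (a + b i) X_{ij} E_{kl}`; here `E_{kl}` is the matrix unit, the indices are counted from `0`,
and a term one of whose indices is not smaller than `n` stands for zero.
-/

namespace Pool.Agent.TH925.PM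

open scoped ComplexOrder

/-- A term. -/
abbrev Trm : Type := (ℤ × ℤ) × (ℕ × ℕ) × (ℕ × ℕ)

/-- An instance. -/
abbrev Inst : Type := List Unit × List Trm

/-- The Gaussian integer `a + b i`. -/
def gauss (c : ℤ × ℤ) : ℂ := (c.1 : ℂ) + (c.2 : ℂ) * Complex.I

/-- The entry `X_{ij}`, zero if one of the indices is out of range. -/
def entry {n : ℕ} (X : Matrix (Fin n) (Fin n) ℂ) (i j : ℕ) : ℂ :=
  if h : i < n ∧ j < n then X ⟨i, h.1⟩ ⟨j, h.2⟩ else 0

/-- The linear map `Φ`. -/
def Phi (n : ℕ) (L : List Trm) (X : Matrix (Fin n) (Fin n) ℂ) : Matrix (Fin n) (Fin n) ℂ :=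
  fun k l => (L.map fun t =>
    if t.2.2 = (k.1, l.1) then gauss t.1 * entry X t.2.1.1 t.2.1.2 else 0).sum

/-- The linear map `Φ` is positive: it maps positive semidefinite matrices to positive
semidefinite matrices. -/
def PositiveMap (q : Inst) : Prop :=
  ∀ X : Matrix (Fin q.1.length) (Fin q.1.length) ℂ, X.PosSemidef →
    (Phi q.1.length q.2 X).PosSemidef

end Pool.Agent.TH925.PM
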