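import Pool.Agent.TH925.PM.Defs

/-!
# Positive maps and block-positive forms
-/

namespace Pool.Agent.TH925.PM

open Matrix ComplexConjugate ComplexOrder

/-- Positivity of a complex matrix by its quadratic form. -/
theorem posSemidef_iff' {n : ℕ} {M : Matrix (Fin n) (Fin n) ℂ} :
    M.PosSemidef ↔ ∀ x : Fin n → ℂ, 0 ≤ star x ⬝ᵥ (M *ᵥ x) := by
  constructor
  · intro h
    exact h.dotProduct_mulVec_nonneg
  · intro h
    rw [← Matrix.isPositive_toEuclideanLin_iff, LinearMap.isPositive_iff_complex]
    intro x
    have h1 := h x.ofLp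
    have h2 : inner ℂ (M.toEuclideanLin x) x = conj (star x.ofLp ⬝ᵥ (M *ᵥ x.ofLp)) := by
      rw [← inner_conj_symm, EuclideanSpace.inner_eq_star_dotProduct]
      congr 1
      rw [dotProduct_comm]
      rfl
    rw [Complex.nonneg_iff] at h1
    rw [h2]
    constructor
    · apply Complex.ext
      · simp
      · simp [← h1.2]
    · simpa using h1.1

/-- The value of the sesquilinear form at product vectors:
`∑ c x_i conj(x_j) conj(y_k) y_l` over the terms all of whose indices are in range. -/
def sesq (n : ℕ) (L : List Trm) (x y : ℕ → ℂ) : ℂ :=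
  (L.map fun t => if (t.2.1.1 < n ∧ t.2.1.2 < n) ∧ (t.2.2.1 < n ∧ t.2.2.2 < n) then
    gauss t.1 * ((x t.2.1.1 * conj (x t.2.1.2)) * (conj (y t.2.2.1) * y t.2.2.2)) else 0).sum

theorem Phi_sum {n m : ℕ} (L : List Trm) (f : Fin m → Matrix (Fin n) (Fin n) ℂ) :
    Phi n L (∑ i, f i) = ∑ i, Phi n L (f i) := by
  ext k l
  rw [Matrix.sum_apply]
  unfold Phi
  induction L with
  | nil => simp
  | cons t L ih =>
    simp only [List.map_cons, List.sum_cons]
    rw [ih, Finset.sum_add_distrib]
    congr 1
    split_ifs with h
    · rw [← Finset.mul_sum]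
      congr 1
      unfold entry
      split_ifs with h2
      · rw [Matrix.sum_apply]
      · simp
    · simp

/-- The extension of a vector by zeros. -/
def ext {n : ℕ} (x : Fin n → ℂ) (i : ℕ) : ℂ := if h : i < n then x ⟨i, h⟩ else 0

theorem form_Phi {n : ℕ} (L : List Trm) (x y : Fin n → ℂ) :
    star y ⬝ᵥ (Phi n L (vecMulVec x (star x)) *ᵥ y) = sesq n L (ext x) (ext y) := by
  have h0 : star y ⬝ᵥ (Phi n L (vecMulVec x (star x)) *ᵥ y) =
      ∑ k, ∑ l, conj (y k) * (Phi n L (vecMulVec x (star x)) k l * y l) := by
    simp only [dotProduct, mulVec, Finset.mul_sum, Pi.star_apply, RCLike.star_def]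
  rw [h0]
  clear h0
  unfold Phi sesq
  induction L with
  | nil => simp
  | cons t L ih =>
    simp only [List.map_cons, List.sum_cons, add_mul, mul_add, Finset.sum_add_distrib]
    rw [ih]
    congr 1
    obtain ⟨c, ⟨i, j⟩, ⟨k, l⟩⟩ := t
    dsimp only
    by_cases hkl : k < n ∧ l < n
    · rw [Finset.sum_eq_single ⟨k, hkl.1⟩, Finset.sum_eq_single ⟨l, hkl.2⟩]
      · rw [if_pos rfl]
        by_cases hij : i < n ∧ j < n
        · rw [if_pos ⟨hij, hkl⟩]
          unfold entry ext
          rw [dif_pos hij, dif_pos hij.1, dif_pos hij.2, dif_pos hkl.1, dif_pos hkl.2]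
          simp only [vecMulVec_apply, Pi.star_apply, RCLike.star_def]
          ring
        · rw [if_neg (fun h => hij h.1)]
          unfold entry
          rw [dif_neg hij]
          ring
      · intro b _ hb
        rw [if_neg]
        · ring
        · intro h
          apply hb
          ext
          simp only [Prod.mk.injEq] at h
          exact h.2.symm
      · intro h; exact absurd (Finset.mem_univ _) h
      · intro b _ hb
        apply Finset.sum_eq_zero
        intro b' _
        rw [if_neg]
        · ring
        · intro h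
          apply hb
          ext
          simp only [Prod.mk.injEq] at h
          exact h.1.symm
      · intro h; exact absurd (Finset.mem_univ _) h
    · rw [if_neg (fun h => hkl h.2)]
      apply Finset.sum_eq_zero
      intro a _
      apply Finset.sum_eq_zero
      intro b _
      rw [if_neg]
      · ring
      · intro h
        simp only [Prod.mk.injEq] at h
        apply hkl
        rw [h.1, h.2]
        exact ⟨a.2, b.2⟩

theorem sesq_congr {n : ℕ} (L : List Trm) {x x' y y' : ℕ → ℂ} (hx : ∀ i < n, x i = x' i)
    (hy : ∀ i < n, y i = y' i) : sesq n L x y = sesq n L x' y' := by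
  unfold sesq
  congr 1
  apply List.map_congr_left
  intro t _
  split_ifs with h
  · rw [hx _ h.1.1, hx _ h.1.2, hy _ h.2.1, hy _ h.2.2]
  · rfl

/-- The map is positive if and only if the form is nonnegative at product vectors (the Choi matrix
is block positive). -/
theorem positiveMap_iff (q : Inst) :
    PositiveMap q ↔ ∀ x y : ℕ → ℂ, 0 ≤ sesq q.1.length q.2 x y := by
  obtain ⟨u, L⟩ := q
  unfold PositiveMap
  dsimp only
  generalize u.length = n
  constructor
  · intro h x y
    have h1 := h (vecMulVec (fun i : Fin n => x i) (star fun i : Fin n => x i))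
      (Matrix.posSemidef_vecMulVec_self_star _)
    have h2 := posSemidef_iff'.1 h1 (fun i : Fin n => y i)
    rw [form_Phi] at h2
    rw [sesq_congr (x' := ext fun i : Fin n => x i) (y' := ext fun i : Fin n => y i)]
    · exact h2
    · intro i hi
      unfold ext
      rw [dif_pos hi]
    · intro i hi
      unfold ext
      rw [dif_pos hi]
  · intro h X hX
    obtain ⟨m, v, rfl⟩ := Matrix.posSemidef_iff_eq_sum_vecMulVec.1 hX
    rw [Phi_sum]
    apply Matrix.posSemidef_sum
    intro i _
    rw [posSemidef_iff']
    intro y
    rw [form_Phi]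
    exact h _ _

end Pool.Agent.TH925.PM
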