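import Pool.Agent.TH925.PM.Pos
import Pool.Agent.TH925.CQ.Inst

/-!
# From biquadratic forms to positive maps

The real biquadratic form `B(x, y) = s |x|² |y|² - ∑ β(x, y)²` is nonnegative if and only if the
sesquilinear form `2 s |x|² |y|² - ∑ |β(x, y)|² - ∑ |β(x, conj y)|²` is nonnegative, since its
value at `x = a + i b`, `y = c + i d` is `2 (B(a, c) + B(a, d) + B(b, c) + B(b, d))`.
-/

namespace Pool.Agent.TH925.PM

open ComplexConjugate ComplexOrder Pool.Agent.NPC Pool.Agent.NPC.ER Pool.Agent.H78R3.TSV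
  Pool.Agent.TH662.SN
open Pool.Agent.TH925.CQ (ip bil bv bv_bil BQ lf th lf_ok sat_iff_neg)

/-- The terms of `2 s |x|² |y|²`. -/
def sqT (s : ℤ) (n : ℕ) : List Trm :=
  (List.range n).flatMap fun i => (List.range n).map fun k => ((2 * s, 0), (i, i), (k, k))

/-- The terms of `- |β(x, y)|² - |β(x, conj y)|²`. -/
def prT (l : List QT) : List Trm :=
  l.flatMap fun t => l.flatMap fun t' =>
    [((-(t.1 * t'.1), 0), (t.2.1, t'.2.1), (t.2.2, t'.2.2)),
      ((-(t.1 * t'.1), 0), (t.2.1, t'.2.1), (t'.2.2, t.2.2))]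

/-- The instance. -/
def inst (s : ℤ) (n : ℕ) (L : List (List QT)) : List Trm :=
  sqT s n ++ L.flatMap fun f => prT (bil f)

/-- The value of a term. -/
def tval (x y : ℕ → ℂ) (t : Trm) : ℂ :=
  gauss t.1 * ((x t.2.1.1 * conj (x t.2.1.2)) * (conj (y t.2.2.1) * y t.2.2.2))

/-- The value without restriction of the indices. -/
def sv (L : List Trm) (x y : ℕ → ℂ) : ℂ := (L.map (tval x y)).sum

/-- All indices are in range. -/
def TOk (n : ℕ) (L : List Trm) : Prop :=
  ∀ t ∈ L, (t.2.1.1 < n ∧ t.2.1.2 < n) ∧ (t.2.2.1 < n ∧ t.2.2.2 < n)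

theorem sesq_eq_sv {n : ℕ} {L : List Trm} (h : TOk n L) (x y : ℕ → ℂ) :
    sesq n L x y = sv L x y := by
  unfold sesq sv
  congr 1
  apply List.map_congr_left
  intro t ht
  rw [if_pos (h t ht)]
  rfl

theorem sv_append (A B : List Trm) (x y : ℕ → ℂ) : sv (A ++ B) x y = sv A x y + sv B x y := by
  simp [sv]

theorem sv_flatMap {α : Type} (l : List α) (F : α → List Trm) (x y : ℕ → ℂ) :
    sv (l.flatMap F) x y = (l.map fun a => sv (F a) x y).sum := by
  induction l with
  | nil => rfl
  | cons a l ih => rw [List.flatMap_cons, sv_append, ih, List.map_cons, List.sum_cons]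

theorem sv_map {α : Type} (l : List α) (F : α → Trm) (x y : ℕ → ℂ) :
    sv (l.map F) x y = (l.map fun a => tval x y (F a)).sum := by
  unfold sv
  rw [List.map_map]
  rfl

/-- The squared norm of the first `n` coordinates. -/
def nsq (n : ℕ) (x : ℕ → ℂ) : ℂ := ((List.range n).map fun i => x i * conj (x i)).sum

theorem sv_sqT (s : ℤ) (n : ℕ) (x y : ℕ → ℂ) :
    sv (sqT s n) x y = 2 * s * (nsq n x * nsq n y) := by
  unfold sqT
  rw [sv_flatMap]
  simp_rw [sv_map]
  have h1 : ∀ i k : ℕ, tval x y ((2 * s, 0), (i, i), (k, k)) =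
      (x i * conj (x i)) * ((2 * (s : ℂ)) * (y k * conj (y k))) := by
    intro i k
    unfold tval gauss
    push_cast
    ring
  simp_rw [h1, List.sum_map_mul_left, List.sum_map_mul_right]
  unfold nsq
  ring

/-- The complex bilinear form. -/
def cbv (x y : ℕ → ℂ) (l : List QT) : ℂ :=
  (l.map fun t => (t.1 : ℂ) * (x t.2.1 * y t.2.2)).sum

theorem conj_cbv (x y : ℕ → ℂ) (l : List QT) : conj (cbv x y l) =
    (l.map fun t => (t.1 : ℂ) * (conj (x t.2.1) * conj (y t.2.2))).sum := by
  unfold cbv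
  induction l with
  | nil => simp
  | cons t l ih =>
    rw [List.map_cons, List.sum_cons, map_add, ih, List.map_cons, List.sum_cons]
    simp only [map_mul, map_intCast]

theorem sv_prT (l : List QT) (x y : ℕ → ℂ) : sv (prT l) x y =
    -(cbv x (fun i => conj (y i)) l * conj (cbv x (fun i => conj (y i)) l)) -
      cbv x y l * conj (cbv x y l) := by
  unfold prT
  rw [sv_flatMap]
  simp_rw [sv_flatMap]
  have h1 : ∀ t t' : QT, sv [((-(t.1 * t'.1), 0), (t.2.1, t'.2.1), (t.2.2, t'.2.2)),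
      ((-(t.1 * t'.1), 0), (t.2.1, t'.2.1), (t'.2.2, t.2.2))] x y =
      ((t.1 : ℂ) * (x t.2.1 * conj (y t.2.2))) *
        (-1 * ((t'.1 : ℂ) * (conj (x t'.2.1) * y t'.2.2))) +
      ((t.1 : ℂ) * (x t.2.1 * y t.2.2)) *
        (-1 * ((t'.1 : ℂ) * (conj (x t'.2.1) * conj (y t'.2.2)))) := by
    intro t t'
    simp only [sv, List.map_cons, List.map_nil, List.sum_cons, List.sum_nil]
    unfold tval gauss
    push_cast
    ring
  simp_rw [h1, List.sum_map_add, List.sum_map_mul_left, List.sum_map_mul_right]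
  rw [conj_cbv, conj_cbv]
  simp only [Complex.conj_conj]
  unfold cbv
  ring

theorem cbv_eq (x y : ℕ → ℂ) (l : List QT) : cbv x y l =
    ((bv (fun i => (x i).re) (fun i => (y i).re) l -
        bv (fun i => (x i).im) (fun i => (y i).im) l : ℝ) : ℂ) +
      ((bv (fun i => (x i).re) (fun i => (y i).im) l +
        bv (fun i => (x i).im) (fun i => (y i).re) l : ℝ) : ℂ) * Complex.I := by
  unfold cbv bv
  induction l with
  | nil => simp
  | cons t l ih =>
    simp only [List.map_cons, List.sum_cons]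
    rw [ih]
    conv_lhs => rw [← Complex.re_add_im (x t.2.1), ← Complex.re_add_im (y t.2.2)]
    push_cast
    linear_combination ((t.1 : ℂ) * (((x t.2.1).im : ℂ) * ((y t.2.2).im : ℂ))) * Complex.I_mul_I

theorem cbv_conj_eq (x y : ℕ → ℂ) (l : List QT) : cbv x (fun i => conj (y i)) l =
    ((bv (fun i => (x i).re) (fun i => (y i).re) l +
        bv (fun i => (x i).im) (fun i => (y i).im) l : ℝ) : ℂ) +
      ((bv (fun i => (x i).im) (fun i => (y i).re) l -
        bv (fun i => (x i).re) (fun i => (y i).im) l : ℝ) : ℂ) * Complex.I := by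
  rw [cbv_eq]
  have h : ∀ a : ℕ → ℝ, bv a (fun i => -(y i).im) l = -bv a (fun i => (y i).im) l := by
    intro a
    unfold bv
    induction l with
    | nil => simp
    | cons t l ih =>
      simp only [List.map_cons, List.sum_cons]
      rw [ih]
      ring
  simp only [Complex.conj_re, Complex.conj_im, h]
  push_cast
  ring

theorem mul_conj_eq (a b : ℝ) : ((a : ℂ) + (b : ℂ) * Complex.I) *
    conj ((a : ℂ) + (b : ℂ) * Complex.I) = ((a ^ 2 + b ^ 2 : ℝ) : ℂ) := by
  rw [map_add, map_mul, Complex.conj_ofReal, Complex.conj_ofReal, Complex.conj_I]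
  push_cast
  linear_combination (-(b : ℂ) ^ 2) * Complex.I_mul_I

theorem nsq_eq (n : ℕ) (x : ℕ → ℂ) : nsq n x =
    ((ip n (fun i => (x i).re) (fun i => (x i).re) +
      ip n (fun i => (x i).im) (fun i => (x i).im) : ℝ) : ℂ) := by
  unfold nsq ip
  induction (List.range n) with
  | nil => simp
  | cons i l ih =>
    simp only [List.map_cons, List.sum_cons]
    rw [ih]
    have h1 : x i * conj (x i) = (((x i).re ^ 2 + (x i).im ^ 2 : ℝ) : ℂ) := by
      rw [← mul_conj_eq, Complex.re_add_im]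
    rw [h1]
    push_cast
    ring

/-- The value of the instance. -/
theorem sv_inst (s : ℤ) (n : ℕ) (L : List (List QT)) (x y : ℕ → ℂ) :
    sv (inst s n L) x y = ((2 * (BQ n s L (fun i => (x i).re) (fun i => (y i).re) +
      BQ n s L (fun i => (x i).re) (fun i => (y i).im) +
      BQ n s L (fun i => (x i).im) (fun i => (y i).re) +
      BQ n s L (fun i => (x i).im) (fun i => (y i).im)) : ℝ) : ℂ) := by
  unfold inst
  rw [sv_append, sv_sqT, sv_flatMap, nsq_eq, nsq_eq]
  have h1 : ∀ f : List QT, sv (prT (bil f)) x y =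
      ((-2 * (fev (fun i => (x i).re) (fun i => (y i).re) f ^ 2 +
        (fev (fun i => (x i).re) (fun i => (y i).im) f ^ 2 +
        (fev (fun i => (x i).im) (fun i => (y i).re) f ^ 2 +
        fev (fun i => (x i).im) (fun i => (y i).im) f ^ 2))) : ℝ) : ℂ) := by
    intro f
    rw [sv_prT, cbv_conj_eq, cbv_eq, mul_conj_eq, mul_conj_eq, bv_bil, bv_bil, bv_bil, bv_bil]
    push_cast
    ring
  simp_rw [h1]
  have h2 : ∀ F : List QT → ℝ, (L.map fun f => ((F f : ℝ) : ℂ)).sum =
      (((L.map F).sum : ℝ) : ℂ) := by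
    intro F
    induction L with
    | nil => simp
    | cons f L ih =>
      simp only [List.map_cons, List.sum_cons]
      rw [ih]
      push_cast
      rfl
  rw [h2]
  simp only [List.sum_map_mul_left, List.sum_map_add]
  unfold BQ
  push_cast
  ring

theorem tok_inst {s : ℤ} {n : ℕ} {L : List (List QT)} (hL : ∀ f ∈ L, FOk n f) :
    TOk n (inst s n L) := by
  intro t ht
  unfold inst at ht
  rw [List.mem_append] at ht
  rcases ht with ht | ht
  · unfold sqT at ht
    rw [List.mem_flatMap] at ht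
    obtain ⟨i, hi, ht⟩ := ht
    rw [List.mem_map] at ht
    obtain ⟨k, hk, rfl⟩ := ht
    rw [List.mem_range] at hi hk
    exact ⟨⟨hi, hi⟩, ⟨hk, hk⟩⟩
  · rw [List.mem_flatMap] at ht
    obtain ⟨f, hf, ht⟩ := ht
    have hb : ∀ t ∈ bil f, t.2.1 < n ∧ t.2.2 < n := by
      intro t ht
      unfold bil at ht
      rw [List.mem_flatMap] at ht
      obtain ⟨t', ht', h2⟩ := ht
      have h3 := hL f hf t' ht'
      simp only [List.mem_cons, List.not_mem_nil, or_false] at h2
      rcases h2 with rfl | rfl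
      · exact h3
      · exact ⟨h3.2, h3.1⟩
    unfold prT at ht
    rw [List.mem_flatMap] at ht
    obtain ⟨t1, ht1, ht⟩ := ht
    rw [List.mem_flatMap] at ht
    obtain ⟨t2, ht2, ht⟩ := ht
    have b1 := hb t1 ht1
    have b2 := hb t2 ht2
    simp only [List.mem_cons, List.not_mem_nil, or_false] at ht
    rcases ht with rfl | rfl
    · exact ⟨⟨b1.1, b2.1⟩, ⟨b1.2, b2.2⟩⟩
    · exact ⟨⟨b1.1, b2.1⟩, ⟨b2.2, b1.2⟩⟩

/-- **Correctness of the reduction.** -/
theorem positive_inst_iff {s : ℤ} {n : ℕ} {L : List (List QT)} (hL : ∀ f ∈ L, FOk n f) :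
    PositiveMap (List.replicate n (), inst s n L) ↔ ∀ x y : ℕ → ℝ, 0 ≤ BQ n s L x y := by
  rw [positiveMap_iff]
  dsimp only
  rw [List.length_replicate]
  simp_rw [sesq_eq_sv (tok_inst hL), sv_inst]
  have h0 : ∀ r : ℝ, (0 : ℂ) ≤ ((r : ℝ) : ℂ) ↔ 0 ≤ r := fun r => by
    rw [← Complex.ofReal_zero, Complex.real_le_real]
  simp_rw [h0]
  constructor
  · intro h x y
    have h1 := h (fun i => (x i : ℂ)) (fun i => (y i : ℂ))
    simp only [Complex.ofReal_re, Complex.ofReal_im] at h1
    have e5 : ∀ a : ℕ → ℝ, ip n a (fun _ => 0) = 0 := fun a => by simp [ip]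
    have e7 : ∀ (a : ℕ → ℝ) (f : List QT), fev a (fun _ => 0) f = 0 := fun a f => by
      unfold fev
      apply List.sum_eq_zero
      intro r hr
      obtain ⟨t, _, rfl⟩ := List.mem_map.1 hr
      simp [tev, bev]
    have e8 : ∀ (a : ℕ → ℝ) (f : List QT), fev (fun _ => 0) a f = 0 := fun a f => by
      unfold fev
      apply List.sum_eq_zero
      intro r hr
      obtain ⟨t, _, rfl⟩ := List.mem_map.1 hr
      simp [tev, bev]
    have c1 : ∀ a : ℕ → ℝ, BQ n s L a (fun _ => 0) = 0 := fun a => by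
      unfold BQ; simp [e5, e7]
    have c2 : ∀ a : ℕ → ℝ, BQ n s L (fun _ => 0) a = 0 := fun a => by
      unfold BQ; simp [e5, e8]
    rw [c1, c2, c1] at h1
    linarith
  · intro h x y
    have h1 := h (fun i => (x i).re) (fun i => (y i).re)
    have h2 := h (fun i => (x i).re) (fun i => (y i).im)
    have h3 := h (fun i => (x i).im) (fun i => (y i).re)
    have h4 := h (fun i => (x i).im) (fun i => (y i).im)
    linarith

/-- The instance of a system. -/
def instP (S : List ER.Con) : Inst :=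
  (List.replicate (hn (gsys S)) (), inst (th S : ℤ) (hn (gsys S)) (lf S))

theorem sat_iff (S : List ER.Con) : Sat S ↔ ¬ PositiveMap (instP S) := by
  unfold instP
  rw [positive_inst_iff (lf_ok S), sat_iff_neg]
  push Not
  rfl

end Pool.Agent.TH925.PM
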