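import Pool.Agent.TH925.PM.Red
import Pool.Agent.TH925.CQ.Time

/-!
# The complexity of positivity of linear maps
-/

namespace Pool.Agent.NPC.TH925PM

open Pool.Agent.NPC Pool.Agent.NPC.ER Pool.Agent.H78R3.TSV Pool.Agent.TH662.SN
  Pool.Agent.NPC.H78TSV Pool.Agent.NPC.TH662SN Pool.Agent.TH925.PM Pool.Agent.NPC.TH925CQ
open Pool.Agent.TH925.CQ (bil lf th)
open ComplexConjugate ComplexOrder

section

variable {α : Type} [TEnc α]

theorem poly_sqT {s : α → ℤ} {n : α → ℕ} (hs : Poly s) (hn : UPoly n) :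
    Poly (fun a => sqT (s a) (n a)) := by
  refine Poly.flatMap (F := fun a i => (List.range (n a)).map fun k =>
    ((((2 : ℤ) * s a, (0 : ℤ)), (i, i), (k, k)) : Trm)) hn.range ?_
  refine Poly.map (F := fun (r : α × ℕ) k =>
    ((((2 : ℤ) * s r.1, (0 : ℤ)), (r.2, r.2), (k, k)) : Trm))
    (hn.range.comp (Poly.fst Poly.id)) ?_
  have e1 : Poly (fun r : (α × ℕ) × ℕ => s r.1.1) := hs.comp (Poly.fst (Poly.fst Poly.id))
  have e2 : Poly (fun r : (α × ℕ) × ℕ => r.1.2) := Poly.snd (Poly.fst Poly.id)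
  have e3 : Poly (fun r : (α × ℕ) × ℕ => r.2) := Poly.snd Poly.id
  exact Poly.pair (Poly.pair (Poly.imul (Poly.const 2) e1) (Poly.const 0))
    (Poly.pair (Poly.pair e2 e2) (Poly.pair e3 e3))

theorem poly_prT {l : α → List QT} (hl : Poly l) : Poly (fun a => prT (l a)) := by
  refine Poly.flatMap (F := fun a (t : QT) => (l a).flatMap fun t' =>
    ([((-(t.1 * t'.1), 0), (t.2.1, t'.2.1), (t.2.2, t'.2.2)),
      ((-(t.1 * t'.1), 0), (t.2.1, t'.2.1), (t'.2.2, t.2.2))] : List Trm)) hl ?_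
  refine Poly.flatMap (F := fun (r : α × QT) (t' : QT) =>
    ([((-(r.2.1 * t'.1), 0), (r.2.2.1, t'.2.1), (r.2.2.2, t'.2.2)),
      ((-(r.2.1 * t'.1), 0), (r.2.2.1, t'.2.1), (t'.2.2, r.2.2.2))] : List Trm))
    (hl.comp (Poly.fst Poly.id)) ?_
  have a1 : Poly (fun r : (α × QT) × QT => r.1.2.1) := Poly.fst (Poly.snd (Poly.fst Poly.id))
  have a2 : Poly (fun r : (α × QT) × QT => r.1.2.2.1) :=
    Poly.fst (Poly.snd (Poly.snd (Poly.fst Poly.id)))
  have a3 : Poly (fun r : (α × QT) × QT => r.1.2.2.2) :=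
    Poly.snd (Poly.snd (Poly.snd (Poly.fst Poly.id)))
  have b1 : Poly (fun r : (α × QT) × QT => r.2.1) := Poly.fst (Poly.snd Poly.id)
  have b2 : Poly (fun r : (α × QT) × QT => r.2.2.1) := Poly.fst (Poly.snd (Poly.snd Poly.id))
  have b3 : Poly (fun r : (α × QT) × QT => r.2.2.2) := Poly.snd (Poly.snd (Poly.snd Poly.id))
  have c : Poly (fun r : (α × QT) × QT => ((-(r.1.2.1 * r.2.1), 0) : ℤ × ℤ)) :=
    Poly.pair (Poly.ineg (Poly.imul a1 b1)) (Poly.const 0)
  exact Poly.cons (Poly.pair c (Poly.pair (Poly.pair a2 b2) (Poly.pair a3 b3)))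
    (Poly.cons (Poly.pair c (Poly.pair (Poly.pair a2 b2) (Poly.pair b3 a3))) (Poly.const []))

theorem poly_inst {s : α → ℤ} {n : α → ℕ} {L : α → List (List QT)} (hs : Poly s) (hn : UPoly n)
    (hL : Poly L) : Poly (fun a => inst (s a) (n a) (L a)) := by
  refine Poly.append (poly_sqT hs hn) ?_
  exact Poly.flatMap (F := fun (_ : α) (f : List QT) => prT (bil f)) hL
    (poly_prT (poly_bil (Poly.snd Poly.id)))

theorem poly_instP {S : α → List ER.Con} (hS : Poly S) : Poly (fun a => instP (S a)) :=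
  Poly.pair (upoly_hn (poly_gsys hS))
    (poly_inst (Poly.natCast (poly_th hS)) (upoly_hn (poly_gsys hS)) (poly_lf hS))

theorem hard : ARHard (lang PositiveMap) :=
  ARHard.of_sys (poly_instP Poly.id) sat_iff

/-! ### Membership -/

/-- Complex terms. -/
abbrev CT : Type := Tm × Tm

def cev (v : ℕ → ℝ) (p : CT) : ℂ := ((p.1.eval v : ℝ) : ℂ) + ((p.2.eval v : ℝ) : ℂ) * Complex.I

def cmul (p q : CT) : CT :=
  (Tm.add (Tm.mul p.1 q.1) (Tm.neg (Tm.mul p.2 q.2)), Tm.add (Tm.mul p.1 q.2) (Tm.mul p.2 q.1))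

def ccj (p : CT) : CT := (p.1, Tm.neg p.2)

theorem cev_cmul (v : ℕ → ℝ) (p q : CT) : cev v (cmul p q) = cev v p * cev v q := by
  unfold cev cmul
  simp only [Tm.eval]
  push_cast
  linear_combination -((p.2.eval v : ℂ) * (q.2.eval v : ℂ)) * Complex.I_mul_I

theorem cev_ccj (v : ℕ → ℝ) (p : CT) : cev v (ccj p) = conj (cev v p) := by
  unfold cev ccj
  simp only [Tm.eval, map_add, map_mul, Complex.conj_ofReal, Complex.conj_I]
  push_cast
  ring

/-- The variables of `x` and of `y`. -/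
def xT (i : ℕ) : CT := (Tm.var (4 * i), Tm.var (4 * i + 1))
def yT (i : ℕ) : CT := (Tm.var (4 * i + 2), Tm.var (4 * i + 3))
def gT (c : ℤ × ℤ) : CT := (intTm c.1, intTm c.2)

theorem cev_gT (v : ℕ → ℝ) (c : ℤ × ℤ) : cev v (gT c) = gauss c := by
  unfold cev gT gauss
  simp only [eval_intTm]
  push_cast
  rfl

def tT (t : Trm) : CT :=
  cmul (gT t.1) (cmul (cmul (xT t.2.1.1) (ccj (xT t.2.1.2))) (cmul (ccj (yT t.2.2.1)) (yT t.2.2.2)))

theorem cev_tT (v : ℕ → ℝ) (t : Trm) :
    cev v (tT t) = tval (fun i => cev v (xT i)) (fun i => cev v (yT i)) t := by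
  unfold tT tval
  simp only [cev_cmul, cev_ccj, cev_gT]

/-- The indices of the term are in range. -/
def inR (n : ℕ) (t : Trm) : Prop := (t.2.1.1 < n ∧ t.2.1.2 < n) ∧ (t.2.2.1 < n ∧ t.2.2.2 < n)

instance (n : ℕ) (t : Trm) : Decidable (inR n t) := by unfold inR; infer_instance

def zT : CT := (Tm.zero, Tm.zero)

def tT' (n : ℕ) (t : Trm) : CT := if inR n t then tT t else zT

/-- The formula which says that the map is not positive. -/
def memF (q : Inst) : Fm :=
  Fm.or (Fm.lt (sumTm (q.2.map fun t => (tT' q.1.length t).1)) Tm.zero)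
    (Fm.not (Fm.eq (sumTm (q.2.map fun t => (tT' q.1.length t).2)) Tm.zero))

theorem eval_sum (v : ℕ → ℝ) (n : ℕ) (L : List Trm) :
    (((sumTm (L.map fun t => (tT' n t).1)).eval v : ℝ) : ℂ) +
      (((sumTm (L.map fun t => (tT' n t).2)).eval v : ℝ) : ℂ) * Complex.I =
    sesq n L (fun i => cev v (xT i)) (fun i => cev v (yT i)) := by
  rw [eval_sumTm, eval_sumTm]
  unfold sesq
  induction L with
  | nil => simp
  | cons t L ih =>
    simp only [List.map_cons, List.sum_cons]
    rw [← ih]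
    have h1 : (((tT' n t).1.eval v : ℝ) : ℂ) + (((tT' n t).2.eval v : ℝ) : ℂ) * Complex.I =
        if inR n t then tval (fun i => cev v (xT i)) (fun i => cev v (yT i)) t else 0 := by
      change cev v (tT' n t) = _
      unfold tT'
      split_ifs with h
      · exact cev_tT v t
      · simp [cev, zT, Tm.eval]
    have h2 : (if (t.2.1.1 < n ∧ t.2.1.2 < n) ∧ (t.2.2.1 < n ∧ t.2.2.2 < n) then
        gauss t.1 * ((cev v (xT t.2.1.1) * conj (cev v (xT t.2.1.2))) *
          (conj (cev v (yT t.2.2.1)) * cev v (yT t.2.2.2))) else 0) =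
        (if inR n t then tval (fun i => cev v (xT i)) (fun i => cev v (yT i)) t else 0) := rfl
    rw [h2, ← h1]
    push_cast
    ring

theorem mem_correct (q : Inst) : ¬ PositiveMap q ↔ ETR (memF q) := by
  rw [positiveMap_iff]
  push Not
  unfold ETR
  have h0 : ∀ v : ℕ → ℝ, (memF q).Holds v ↔
      ¬ (0 ≤ sesq q.1.length q.2 (fun i => cev v (xT i)) (fun i => cev v (yT i))) := by
    intro v
    rw [← eval_sum, Complex.nonneg_iff]
    unfold memF
    simp only [Fm.Holds, Tm.eval]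
    set a := (sumTm (q.2.map fun t => (tT' q.1.length t).1)).eval v
    set b := (sumTm (q.2.map fun t => (tT' q.1.length t).2)).eval v
    have e1 : ((a : ℂ) + (b : ℂ) * Complex.I).re = a := by simp
    have e2 : ((a : ℂ) + (b : ℂ) * Complex.I).im = b := by simp
    rw [e1, e2, not_and_or, not_le]
    exact or_congr Iff.rfl (not_congr ⟨fun h => h.symm, fun h => h.symm⟩)
  simp only [h0]
  constructor
  · rintro ⟨x, y, h⟩
    refine ⟨fun k => if k % 4 = 0 then (x (k / 4)).re else if k % 4 = 1 then (x (k / 4)).im else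
      if k % 4 = 2 then (y (k / 4)).re else (y (k / 4)).im, ?_⟩
    have e1 : (fun i => cev (fun k => if k % 4 = 0 then (x (k / 4)).re else if k % 4 = 1 then
        (x (k / 4)).im else if k % 4 = 2 then (y (k / 4)).re else (y (k / 4)).im) (xT i)) = x := by
      ext i
      have a1 : (4 * i) % 4 = 0 := by omega
      have a2 : (4 * i) / 4 = i := by omega
      have a3 : (4 * i + 1) % 4 = 1 := by omega
      have a4 : (4 * i + 1) / 4 = i := by omega
      simp only [cev, xT, Tm.eval, a1, a2, a3, a4, if_true]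
      rw [if_neg one_ne_zero]
      exact Complex.re_add_im _
    have e2 : (fun i => cev (fun k => if k % 4 = 0 then (x (k / 4)).re else if k % 4 = 1 then
        (x (k / 4)).im else if k % 4 = 2 then (y (k / 4)).re else (y (k / 4)).im) (yT i)) = y := by
      ext i
      have a1 : (4 * i + 2) % 4 = 2 := by omega
      have a2 : (4 * i + 2) / 4 = i := by omega
      have a3 : (4 * i + 3) % 4 = 3 := by omega
      have a4 : (4 * i + 3) / 4 = i := by omega
      simp only [cev, yT, Tm.eval, a1, a2, a3, a4, if_true]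
      norm_num
    rw [e1, e2]
    exact h
  · rintro ⟨v, h⟩
    exact ⟨_, _, h⟩

theorem poly_cmul {p q : α → CT} (hp : Poly p) (hq : Poly q) :
    Poly (fun a => cmul (p a) (q a)) := by
  have p1 : Poly (fun a => (p a).1) := Poly.fst hp
  have p2 : Poly (fun a => (p a).2) := Poly.snd hp
  have q1 : Poly (fun a => (q a).1) := Poly.fst hq
  have q2 : Poly (fun a => (q a).2) := Poly.snd hq
  exact Poly.pair (H612.poly_tadd (H612.poly_tmul p1 q1) (H612.poly_tneg (H612.poly_tmul p2 q2)))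
    (H612.poly_tadd (H612.poly_tmul p1 q2) (H612.poly_tmul p2 q1))

theorem poly_ccj {p : α → CT} (hp : Poly p) : Poly (fun a => ccj (p a)) :=
  Poly.pair (Poly.fst hp) (H612.poly_tneg (Poly.snd hp))

theorem poly_tT {t : α → Trm} (ht : Poly t) : Poly (fun a => tT (t a)) := by
  have c1 : Poly (fun a => (t a).1.1) := Poly.fst (Poly.fst ht)
  have c2 : Poly (fun a => (t a).1.2) := Poly.snd (Poly.fst ht)
  have i1 : Poly (fun a => (t a).2.1.1) := Poly.fst (Poly.fst (Poly.snd ht))
  have i2 : Poly (fun a => (t a).2.1.2) := Poly.snd (Poly.fst (Poly.snd ht))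
  have i3 : Poly (fun a => (t a).2.2.1) := Poly.fst (Poly.snd (Poly.snd ht))
  have i4 : Poly (fun a => (t a).2.2.2) := Poly.snd (Poly.snd (Poly.snd ht))
  have v : ∀ {g : α → ℕ} (c : ℕ), Poly g → Poly (fun a => Tm.var (4 * g a + c)) := fun c hg =>
    H612.poly_tvar (Poly.add (Poly.mul (Poly.const 4) hg) (Poly.const c))
  have hx : ∀ {g : α → ℕ}, Poly g → Poly (fun a => xT (g a)) := fun hg =>
    Poly.pair (H612.poly_tvar (Poly.mul (Poly.const 4) hg)) (v 1 hg)
  have hy : ∀ {g : α → ℕ}, Poly g → Poly (fun a => yT (g a)) := fun hg =>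
    Poly.pair (v 2 hg) (v 3 hg)
  have hg : Poly (fun a => gT (t a).1) := Poly.pair (poly_intTm c1) (poly_intTm c2)
  exact poly_cmul hg (poly_cmul (poly_cmul (hx i1) (poly_ccj (hx i2)))
    (poly_cmul (poly_ccj (hy i3)) (hy i4)))

end

theorem poly_inR : Poly (fun p : Inst × Trm => decide (inR p.1.1.length p.2)) := by
  have hn : Poly (fun p : Inst × Trm => p.1.1.length) := Poly.length (Poly.fst (Poly.fst Poly.id))
  have i1 : Poly (fun p : Inst × Trm => p.2.2.1.1) := Poly.fst (Poly.fst (Poly.snd (Poly.snd Poly.id)))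
  have i2 : Poly (fun p : Inst × Trm => p.2.2.1.2) := Poly.snd (Poly.fst (Poly.snd (Poly.snd Poly.id)))
  have i3 : Poly (fun p : Inst × Trm => p.2.2.2.1) := Poly.fst (Poly.snd (Poly.snd (Poly.snd Poly.id)))
  have i4 : Poly (fun p : Inst × Trm => p.2.2.2.2) := Poly.snd (Poly.snd (Poly.snd (Poly.snd Poly.id)))
  refine (Poly.and (Poly.and (Poly.decide_lt i1 hn) (Poly.decide_lt i2 hn))
      (Poly.and (Poly.decide_lt i3 hn) (Poly.decide_lt i4 hn))).congr fun p => ?_
  rw [← Bool.decide_and, ← Bool.decide_and, ← Bool.decide_and]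
  rfl

theorem poly_tT' : Poly (fun p : Inst × Trm => tT' p.1.1.length p.2) :=
  Poly.ite (p := fun p : Inst × Trm => inR p.1.1.length p.2) poly_inR (poly_tT (Poly.snd Poly.id))
    (Poly.const zT)

theorem poly_memF : Poly memF := by
  have h2 : Poly (fun q : Inst => q.2) := Poly.snd Poly.id
  have s1 : Poly (fun q : Inst => sumTm (q.2.map fun t => (tT' q.1.length t).1)) :=
    poly_sumTm (Poly.map (F := fun (q : Inst) (t : Trm) => (tT' q.1.length t).1) h2
      (Poly.fst poly_tT'))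
  have s2 : Poly (fun q : Inst => sumTm (q.2.map fun t => (tT' q.1.length t).2)) :=
    poly_sumTm (Poly.map (F := fun (q : Inst) (t : Trm) => (tT' q.1.length t).2) h2
      (Poly.snd poly_tT'))
  exact H612.poly_for (H612.poly_flt s1 (Poly.const _))
    (H612.poly_fnot (H612.poly_feq s2 (Poly.const _)))

theorem mem : InAR (lang PositiveMap) := InAR.of_poly poly_memF mem_correct

theorem complete : ARComplete (lang PositiveMap) := ⟨mem, hard⟩

end Pool.Agent.NPC.TH925PM
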